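import Mathlib

set_option autoImplicit false

namespace Pool.Agent.Results.MP_4b6139_gt.NotStronglyP

open Topology Filter

universe u

/-- A subset A of a space X is P-embedded: every continuous map from A into a real Banach space
extends continuously over X. -/
def PEmbedded {X : Type} [TopologicalSpace X] (A : Set X) : Prop :=
  ∀ (B : Type u) [NormedAddCommGroup B] [NormedSpace ℝ B] [CompleteSpace B] (f : A → B),
    Continuous f → ∃ F : X → B, Continuous F ∧ ∀ a : A, F a = f a

/-- A space is Cech-complete: it is Tychonoff and its image in its Stone-Cech compactification is a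
G-delta set. -/
def CechComplete (X : Type) [TopologicalSpace X] : Prop :=
  T35Space X ∧ IsGδ (Set.range (stoneCechUnit : X → StoneCech X))

/-! ### Closed subsets of paracompact Hausdorff spaces are P-embedded -/

section PEmb

variable {X : Type} [TopologicalSpace X] {A : Set X} {B : Type u} [NormedAddCommGroup B]
  [NormedSpace ℝ B]

theorem approx [T2Space X] [ParacompactSpace X] (hA : IsClosed A) (f : A → B) (hf : Continuous f)
    (S : Set B) (hS : Convex ℝ S) (hne : S.Nonempty) (hfS : ∀ a, f a ∈ S) (ε : ℝ) (hε : 0 < ε) :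
    ∃ g : C(X, B), (∀ x, g x ∈ S) ∧ ∀ a : A, ‖f a - g a‖ ≤ ε := by
  let t : X → Set B := fun x => S ∩ ⋂ h : x ∈ A, Metric.ball (f ⟨x, h⟩) ε
  have ht : ∀ x, Convex ℝ (t x) := fun x => hS.inter (convex_iInter fun h => convex_ball _ _)
  have H : ∀ x : X, ∃ c : B, ∀ᶠ y in 𝓝 x, c ∈ t y := by
    intro x
    by_cases hx : x ∈ A
    · refine ⟨f ⟨x, hx⟩, ?_⟩
      have h1 : ∀ᶠ a in 𝓝 (⟨x, hx⟩ : A), f a ∈ Metric.ball (f ⟨x, hx⟩) ε :=
        hf.continuousAt.eventually (Metric.ball_mem_nhds _ hε)
      rw [nhds_subtype_eq_comap, Filter.eventually_comap] at h1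
      filter_upwards [h1] with y hy
      refine ⟨hfS _, Set.mem_iInter.2 fun h => ?_⟩
      rw [Metric.mem_ball, dist_comm]
      exact hy ⟨y, h⟩ rfl
    · obtain ⟨c, hc⟩ := hne
      refine ⟨c, ?_⟩
      filter_upwards [hA.isOpen_compl.mem_nhds hx] with y hy
      exact ⟨hc, Set.mem_iInter.2 fun h => absurd h hy⟩
  obtain ⟨g, hg⟩ := exists_continuous_forall_mem_convex_of_local_const ht H
  refine ⟨g, fun x => (hg x).1, fun a => ?_⟩
  have h1 := Set.mem_iInter.1 (hg a.1).2 a.2
  rw [Metric.mem_ball, dist_comm, dist_eq_norm] at h1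
  exact h1.le

theorem pEmbedded_of_closed [T2Space X] [ParacompactSpace X] (hA : IsClosed A) :
    PEmbedded.{u} A := by
  intro B _ _ _ f hf
  obtain ⟨g0, -, hg0⟩ := approx hA f hf Set.univ convex_univ Set.univ_nonempty
    (fun _ => trivial) 1 one_pos
  let T : ℕ → Type u := fun n => {h : A → B // Continuous h ∧ ∀ a, ‖h a‖ ≤ (1 / 2 : ℝ) ^ n}
  have step : ∀ n (h : T n), ∃ g : C(X, B), (∀ x, ‖g x‖ ≤ (1 / 2 : ℝ) ^ n) ∧
      ∀ a : A, ‖h.1 a - g a‖ ≤ (1 / 2 : ℝ) ^ (n + 1) := by
    intro n h
    obtain ⟨g, hg1, hg2⟩ := approx hA h.1 h.2.1 (Metric.closedBall 0 ((1 / 2 : ℝ) ^ n))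
      (convex_closedBall _ _) ⟨0, by simp⟩ (fun a => by simpa using h.2.2 a)
      ((1 / 2 : ℝ) ^ (n + 1)) (by positivity)
    exact ⟨g, fun x => by simpa using hg1 x, hg2⟩
  choose g hg1 hg2 using step
  let s : ∀ n, T n := fun n => Nat.rec
    ⟨fun a => f a - g0 a, hf.sub (g0.continuous.comp continuous_subtype_val),
      fun a => by simpa using hg0 a⟩
    (fun n h => ⟨fun a => h.1 a - g n h a,
      h.2.1.sub ((g n h).continuous.comp continuous_subtype_val), hg2 n h⟩) n
  have hs0 : ∀ a, (s 0).1 a = f a - g0 a := fun a => rfl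
  have hs1 : ∀ n a, (s (n + 1)).1 a = (s n).1 a - g n (s n) a := fun n a => rfl
  have hsum : Summable fun n : ℕ => (1 / 2 : ℝ) ^ n := summable_geometric_two
  refine ⟨fun x => g0 x + ∑' n, g n (s n) x, ?_, fun a => ?_⟩
  · exact g0.continuous.add (continuous_tsum (fun n => (g n (s n)).continuous) hsum
      fun n x => hg1 n (s n) x)
  · have h1 : Summable fun n => g n (s n) a :=
      Summable.of_norm_bounded hsum fun n => hg1 n (s n) a
    have h2 : ∀ N, ∑ n ∈ Finset.range N, g n (s n) a = (s 0).1 a - (s N).1 a := by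
      intro N
      induction N with
      | zero => simp
      | succ N ih =>
        rw [Finset.sum_range_succ, ih, hs1]
        abel
    have h3 : Tendsto (fun N => (s N).1 a) atTop (𝓝 0) := by
      apply squeeze_zero_norm (fun n => (s n).2.2 a)
      exact tendsto_pow_atTop_nhds_zero_of_lt_one (by norm_num) (by norm_num)
    have h4 : Tendsto (fun N => ∑ n ∈ Finset.range N, g n (s n) a) atTop (𝓝 ((s 0).1 a)) := by
      simp only [h2]
      simpa using (tendsto_const_nhds (x := (s 0).1 a)).sub h3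
    have h5 := tendsto_nhds_unique h1.hasSum.tendsto_sum_nat h4
    show g0 a + ∑' n, g n (s n) a = f a
    rw [h5, hs0]
    abel

end PEmb

/-! ### A criterion for Cech-completeness -/

theorem gdelta_of {A Z : Type} [TopologicalSpace A] [TopologicalSpace Z] [CompactSpace Z]
    [T2Space Z] (j : A → Z) (hj : Continuous j) (G : Set Z) (hG : IsGδ G) (hjG : ∀ a, j a ∈ G)
    (hprop : ∀ (f : Ultrafilter A) (z : Z), z ∈ G → Tendsto j f (𝓝 z) → ∃ a, (f : Filter A) ≤ 𝓝 a) :
    IsGδ (Set.range (stoneCechUnit : A → StoneCech A)) := by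
  have h1 : Set.range (stoneCechUnit : A → StoneCech A) = (stoneCechExtend hj) ⁻¹' G := by
    apply Set.Subset.antisymm
    · rintro _ ⟨a, rfl⟩
      show stoneCechExtend hj (stoneCechUnit a) ∈ G
      rw [stoneCechExtend_stoneCechUnit]
      exact hjG a
    · intro p hp
      have h2 : p ∈ closure (Set.range (stoneCechUnit : A → StoneCech A)) :=
        denseRange_stoneCechUnit p
      have h3 : (comap (stoneCechUnit : A → StoneCech A) (𝓝 p)).NeBot := by
        apply comap_neBot
        intro t ht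
        obtain ⟨y, hy1, a, rfl⟩ := mem_closure_iff_nhds.1 h2 t ht
        exact ⟨a, hy1⟩
      let f : Ultrafilter A := Ultrafilter.of (comap (stoneCechUnit : A → StoneCech A) (𝓝 p))
      have h4 : Tendsto (stoneCechUnit : A → StoneCech A) f (𝓝 p) :=
        (tendsto_comap).mono_left (Ultrafilter.of_le _)
      have h5 : Tendsto j f (𝓝 (stoneCechExtend hj p)) := by
        have := (continuous_stoneCechExtend hj).continuousAt.tendsto.comp h4
        rwa [stoneCechExtend_extends] at this
      obtain ⟨a, ha⟩ := hprop f _ hp h5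
      have h6 : Tendsto (stoneCechUnit : A → StoneCech A) f (𝓝 (stoneCechUnit a)) :=
        (continuous_stoneCechUnit.continuousAt.tendsto).mono_left ha
      exact ⟨a, tendsto_nhds_unique h6 h4⟩
  rw [h1]
  exact hG.preimage (continuous_stoneCechExtend hj)

/-! ### The example -/

/-- The irrational numbers. -/
abbrev P : Type := {x : ℝ // Irrational x}

/-- The irrational numbers as a discrete space. -/
def D : Type := {x : ℝ // Irrational x}

instance : TopologicalSpace D := ⊥
instance : DiscreteTopology D := ⟨rfl⟩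

def toD (p : P) : D := p
def ofD (d : D) : P := d

/-- The Michael line. -/
def ML : Type := ℝ

instance : TopologicalSpace ML where
  IsOpen U := ∀ x : ℝ, x ∈ (show Set ℝ from U) → ¬ Irrational x → (show Set ℝ from U) ∈ 𝓝 x
  isOpen_univ := fun x _ _ => Filter.univ_mem
  isOpen_inter := fun U V hU hV x hx hq => Filter.inter_mem (hU x hx.1 hq) (hV x hx.2 hq)
  isOpen_sUnion := fun S hS x hx hq => by
    obtain ⟨U, hU, hxU⟩ := hx
    exact Filter.mem_of_superset (hS U hU x hxU hq) (Set.subset_sUnion_of_mem hU)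

theorem ML_isOpen_iff (U : Set ML) :
    IsOpen U ↔ ∀ x : ℝ, x ∈ (show Set ℝ from U) → ¬ Irrational x → (show Set ℝ from U) ∈ 𝓝 x :=
  Iff.rfl

def toML (x : ℝ) : ML := x
def ofML (x : ML) : ℝ := x

theorem isOpen_of_real (U : Set ℝ) (hU : IsOpen U) : IsOpen (ofML ⁻¹' U) := by
  rw [ML_isOpen_iff]
  intro x hx _
  exact hU.mem_nhds hx

theorem isOpen_irr (y : ℝ) (hy : Irrational y) : IsOpen ({toML y} : Set ML) := by
  rw [ML_isOpen_iff]
  intro x hx hq
  have : x = y := hx
  subst this
  exact absurd hy hq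

theorem nhds_rat (y : ℝ) (hy : ¬ Irrational y) (U : Set ML) (hU : U ∈ 𝓝 (toML y)) :
    (show Set ℝ from U) ∈ 𝓝 y := by
  obtain ⟨V, hVU, hV, hyV⟩ := mem_nhds_iff.1 hU
  exact Filter.mem_of_superset ((ML_isOpen_iff V).1 hV y hyV hy) hVU

/-- The subset. -/
def A : Set (OnePoint D × P) := {z | z.1 = OnePoint.infty ∨ z.1 = OnePoint.some (toD z.2)}

open Classical in
noncomputable def g (z : (OnePoint D × P) × ML) : ℝ :=
  if z.1.1 = OnePoint.some (toD z.1.2) ∧ ofML z.2 = z.1.2.1 then 1 else 0

theorem isOpen_pt (d : D) : IsOpen ({OnePoint.some d} : Set (OnePoint D)) := by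
  have := OnePoint.isOpenMap_coe (X := D) {d} (isOpen_discrete _)
  simpa using this

theorem A_closed : IsClosed A := by
  rw [← isOpen_compl_iff, isOpen_iff_mem_nhds]
  rintro ⟨k, p⟩ hz
  have hz' : ¬ (k = OnePoint.infty ∨ k = OnePoint.some (toD p)) := hz
  rw [not_or] at hz'
  induction k using OnePoint.rec with
  | infty => exact absurd rfl hz'.1
  | coe d =>
    have hne : (ofD d) ≠ p := by
      intro h
      apply hz'.2
      have : (toD p) = d := h.symm
      rw [this]
    have h1 : ({OnePoint.some d} : Set (OnePoint D)) ∈ 𝓝 (OnePoint.some d) :=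
      (isOpen_pt d).mem_nhds rfl
    have h2 : ({(ofD d)}ᶜ : Set P) ∈ 𝓝 p :=
      isOpen_compl_singleton.mem_nhds (fun h => hne (Set.mem_singleton_iff.1 h).symm)
    have h3 := prod_mem_nhds h1 h2
    refine Filter.mem_of_superset h3 ?_
    rintro ⟨k', p'⟩ ⟨hk', hp'⟩ hmem
    have hk'' : k' = OnePoint.some d := hk'
    subst hk''
    rcases hmem with h | h
    · exact OnePoint.coe_ne_infty _ h
    · have : d = (toD p') := OnePoint.coe_injective h
      exact hp' this.symm

theorem g_cont : ContinuousOn g (A ×ˢ (Set.univ : Set ML)) := by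
  rintro ⟨⟨k, p⟩, y⟩ ⟨hA, -⟩
  have hA' : k = OnePoint.infty ∨ k = OnePoint.some (toD p) := hA
  by_cases hy : Irrational (ofML y)
  · -- isolated y
    have hy1 : ({y} : Set ML) ∈ 𝓝 y := (isOpen_irr (ofML y) hy).mem_nhds rfl
    by_cases hk : k = OnePoint.some (toD p) ∧ ofML y = p.1
    · have hU : (({k} : Set (OnePoint D)) ×ˢ (Set.univ : Set P)) ×ˢ ({y} : Set ML) ∈
          𝓝 (((k, p), y) : (OnePoint D × P) × ML) := by
        refine prod_mem_nhds (prod_mem_nhds ?_ Filter.univ_mem) hy1
        rw [hk.1]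
        exact (isOpen_pt _).mem_nhds rfl
      have hev : ∀ᶠ z in 𝓝[A ×ˢ (Set.univ : Set ML)] (((k, p), y) : (OnePoint D × P) × ML),
          g z = 1 := by
        filter_upwards [mem_nhdsWithin_of_mem_nhds hU, self_mem_nhdsWithin]
        rintro ⟨⟨k', p'⟩, y'⟩ ⟨⟨hk', -⟩, hy'⟩ ⟨hA2, -⟩
        have hk'' : k' = k := hk'
        have hy'' : y' = y := hy'
        subst hk'' hy''
        have hA2' : k' = OnePoint.infty ∨ k' = OnePoint.some (toD p') := hA2
        rcases hA2' with h | h
        · exfalso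
          rw [hk.1] at h
          exact OnePoint.coe_ne_infty _ h
        · have hpp : (toD p') = (toD p) := by
            apply OnePoint.coe_injective
            exact h.symm.trans hk.1
          have hpp' : p' = p := hpp
          unfold g
          rw [if_pos]
          exact ⟨h, by rw [hk.2, hpp']⟩
      have hg : g (((k, p), y) : (OnePoint D × P) × ML) = 1 := by
        unfold g
        rw [if_pos hk]
      exact (continuousWithinAt_const (b := (1:ℝ))).congr_of_eventuallyEq hev hg
    · have hg : g (((k, p), y) : (OnePoint D × P) × ML) = 0 := by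
        unfold g
        rw [if_neg hk]
      let yD : D := ⟨ofML y, hy⟩
      let yP : P := ⟨ofML y, hy⟩
      have hne : ((k, p) : OnePoint D × P) ≠ (OnePoint.some yD, yP) := by
        intro h
        apply hk
        have h1 : k = OnePoint.some yD := congrArg Prod.fst h
        have h2 : p = yP := congrArg Prod.snd h
        refine ⟨?_, ?_⟩
        · rw [h1, h2]
          rfl
        · rw [h2]
      have hU : ({(OnePoint.some yD, yP)}ᶜ : Set (OnePoint D × P)) ∈ 𝓝 (k, p) :=
        isOpen_compl_singleton.mem_nhds hne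
      have hev : ∀ᶠ z in 𝓝[A ×ˢ (Set.univ : Set ML)] (((k, p), y) : (OnePoint D × P) × ML),
          g z = 0 := by
        filter_upwards [mem_nhdsWithin_of_mem_nhds (prod_mem_nhds hU hy1)]
        rintro ⟨⟨k', p'⟩, y'⟩ ⟨h1, h2⟩
        have hy'' : y' = y := h2
        subst hy''
        unfold g
        rw [if_neg]
        rintro ⟨h3, h4⟩
        apply h1
        have hp' : p' = yP := Subtype.ext h4.symm
        show (k', p') = (OnePoint.some yD, yP)
        have h3' : k' = OnePoint.some (toD p') := h3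
        rw [h3', hp']
        rfl
      exact (continuousWithinAt_const (b := (0:ℝ))).congr_of_eventuallyEq hev hg
  · -- rational y
    have hne : (p : ℝ) ≠ ofML y := by
      intro h
      exact hy (h ▸ p.2)
    obtain ⟨U, V, hU, hV, hpU, hyV, hUV⟩ := t2_separation hne
    have hU' : (Set.univ : Set (OnePoint D)) ×ˢ ((Subtype.val : P → ℝ) ⁻¹' U) ∈ 𝓝 (k, p) :=
      prod_mem_nhds Filter.univ_mem ((hU.preimage continuous_subtype_val).mem_nhds hpU)
    have hV' : (ofML ⁻¹' V) ∈ 𝓝 y := (isOpen_of_real V hV).mem_nhds hyV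
    have key : ∀ z ∈ ((Set.univ : Set (OnePoint D)) ×ˢ ((Subtype.val : P → ℝ) ⁻¹' U)) ×ˢ
        (ofML ⁻¹' V), g z = 0 := by
      rintro ⟨⟨k', p'⟩, y'⟩ ⟨⟨-, h1⟩, h2⟩
      unfold g
      rw [if_neg]
      rintro ⟨-, h4⟩
      have h1' : (p' : ℝ) ∈ U := h1
      have h2' : ofML y' ∈ V := h2
      have h4' : ofML y' = (p' : ℝ) := h4
      rw [h4'] at h2'
      exact Set.disjoint_left.1 hUV h1' h2'
    have hev : ∀ᶠ z in 𝓝[A ×ˢ (Set.univ : Set ML)] (((k, p), y) : (OnePoint D × P) × ML),
          g z = 0 := by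
      filter_upwards [mem_nhdsWithin_of_mem_nhds (prod_mem_nhds hU' hV')]
      exact key
    have hg : g (((k, p), y) : (OnePoint D × P) × ML) = 0 :=
      key _ (mem_of_mem_nhds (prod_mem_nhds hU' hV'))
    exact (continuousWithinAt_const (b := (0:ℝ))).congr_of_eventuallyEq hev hg

/-- For each irrational p there is a radius on which the extension is large. -/
theorem no_ext (G : (OnePoint D × P) × ML → ℝ) (hG : Continuous G)
    (hE : Set.EqOn G g (A ×ˢ (Set.univ : Set ML))) : False := by
  have h1 : ∀ p : P, ∃ n : ℕ, ∀ p' : P, dist (p' : ℝ) (p : ℝ) < 1 / ((n : ℝ) + 1) →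
      1 / 2 < G ((OnePoint.some (toD p), p'), toML p) := by
    intro p
    have hmem : (((OnePoint.some (toD p), p), toML p) : (OnePoint D × P) × ML) ∈
        (A ×ˢ (Set.univ : Set ML)) := ⟨Or.inr rfl, trivial⟩
    have hval : G ((OnePoint.some (toD p), p), toML p) = 1 := by
      rw [hE hmem]
      unfold g
      rw [if_pos]
      exact ⟨rfl, rfl⟩
    have hcont : Continuous (fun p' : P => G ((OnePoint.some (toD p), p'), toML p)) :=
      hG.comp (by fun_prop)
    have hev : ∀ᶠ p' in 𝓝 p, 1 / 2 < G ((OnePoint.some (toD p), p'), toML p) := by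
      apply hcont.continuousAt.eventually_const_lt
      show 1 / 2 < G ((OnePoint.some (toD p), p), toML p)
      rw [hval]; norm_num
    obtain ⟨ε, hε, hball⟩ := Metric.eventually_nhds_iff.1 hev
    obtain ⟨n, hn⟩ := exists_nat_one_div_lt hε
    refine ⟨n, fun p' hp' => hball ?_⟩
    exact lt_trans hp' hn
  choose N hN using h1
  -- Baire
  let f : ℕ ⊕ ℚ → Set ℝ := fun i => match i with
    | Sum.inl n => closure {x : ℝ | ∃ h : Irrational x, N ⟨x, h⟩ ≤ n}
    | Sum.inr q => {(q : ℝ)}
  have hfc : ∀ i, IsClosed (f i) := by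
    rintro (n | q)
    · exact isClosed_closure
    · exact isClosed_singleton
  have hfu : ⋃ i, f i = Set.univ := by
    rw [Set.eq_univ_iff_forall]
    intro x
    rw [Set.mem_iUnion]
    by_cases hx : Irrational x
    · exact ⟨Sum.inl (N ⟨x, hx⟩), subset_closure ⟨hx, le_rfl⟩⟩
    · have : ∃ q : ℚ, (q : ℝ) = x := by
        have := hx
        unfold Irrational at this
        push Not at this
        simpa using this
      obtain ⟨q, hq⟩ := this
      exact ⟨Sum.inr q, hq.symm⟩
  obtain ⟨i, hi⟩ := nonempty_interior_of_iUnion_of_closed hfc hfu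
  rcases i with n | q
  swap
  · have : interior ({(q : ℝ)} : Set ℝ) = ∅ := interior_singleton _
    change (interior ({(q : ℝ)} : Set ℝ)).Nonempty at hi
    rw [this] at hi
    exact Set.not_nonempty_empty hi
  obtain ⟨x, hx⟩ := hi
  obtain ⟨ε, hε, hball⟩ := Metric.isOpen_iff.1 isOpen_interior x hx
  set δ : ℝ := min ε (1 / (2 * ((n : ℝ) + 1))) with hδ
  have hn1 : (0 : ℝ) < (n : ℝ) + 1 := by positivity
  have hδ0 : 0 < δ := lt_min hε (by positivity)
  -- rational in the ball
  obtain ⟨q, hq1, hq2⟩ := exists_rat_btwn (show x < x + δ by linarith)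
  obtain ⟨r, hr, hr1, hr2⟩ := exists_irrational_btwn (show x < x + δ by linarith)
  let p0 : P := ⟨r, hr⟩
  have hqn : ¬ Irrational ((q : ℚ) : ℝ) := by
    simp [Irrational]
  have hmem : (((OnePoint.infty, p0), toML q) : (OnePoint D × P) × ML) ∈
        (A ×ˢ (Set.univ : Set ML)) := ⟨Or.inl rfl, trivial⟩
  have hval : G ((OnePoint.infty, p0), toML q) = 0 := by
    rw [hE hmem]
    unfold g
    rw [if_neg]
    rintro ⟨h, -⟩
    exact OnePoint.infty_ne_coe _ h
  have hcont : Continuous (fun w : OnePoint D × ML => G ((w.1, p0), w.2)) :=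
    hG.comp (by fun_prop)
  have hev : ∀ᶠ w in 𝓝 ((OnePoint.infty, toML q) : OnePoint D × ML),
      G ((w.1, p0), w.2) < 1 / 2 := by
    apply hcont.continuousAt.eventually_lt_const
    show G ((OnePoint.infty, p0), toML q) < 1 / 2
    rw [hval]; norm_num
  rw [nhds_prod_eq] at hev
  obtain ⟨S, hS, T, hT, hST⟩ := Filter.mem_prod_iff.1 hev
  -- S contains all but finitely many
  have hSfin : ({d : D | OnePoint.some d ∉ S}).Finite := by
    obtain ⟨S', hS'S, hS'o, hinf⟩ := mem_nhds_iff.1 hS
    have := (OnePoint.isOpen_iff_of_mem hinf).1 hS'o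
    obtain ⟨hcl, hcomp⟩ := this
    have hfin := hcomp.finite_of_discrete
    refine hfin.subset ?_
    intro d hd
    simp only [Set.mem_compl_iff, Set.mem_preimage]
    intro h
    exact hd (hS'S h)
  have hT' : (show Set ℝ from T) ∈ 𝓝 (q : ℝ) := nhds_rat q hqn T hT
  have hST' : ∀ (k : OnePoint D) (y : ML), k ∈ S → y ∈ T → G ((k, p0), y) < 1 / 2 :=
    fun k y hk hy => hST (Set.mk_mem_prod hk hy)
  -- open nbhd of q inside ball
  have hballx : Metric.ball x δ ⊆ closure {x : ℝ | ∃ h : Irrational x, N ⟨x, h⟩ ≤ n} := by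
    intro z hz
    apply interior_subset
    exact hball (Metric.ball_subset_ball (min_le_left _ _) hz)
  have hqball : (q : ℝ) ∈ Metric.ball x δ := by
    rw [Metric.mem_ball, Real.dist_eq, abs_lt]
    constructor <;> linarith
  have hrball : r ∈ Metric.ball x δ := by
    rw [Metric.mem_ball, Real.dist_eq, abs_lt]
    constructor <;> linarith
  have hW : interior (show Set ℝ from T) ∩ Metric.ball x δ ∈ 𝓝 (q : ℝ) :=
    Filter.inter_mem (interior_mem_nhds.2 hT') (Metric.isOpen_ball.mem_nhds hqball)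
  -- remove finitely many points
  let Fin : Set ℝ := Subtype.val '' ({d : D | OnePoint.some d ∉ S} : Set {x : ℝ // Irrational x})
  have hFin : Fin.Finite := Set.Finite.image _ hSfin
  have hWo : IsOpen ((interior (show Set ℝ from T) ∩ Metric.ball x δ) \ Fin) :=
    (isOpen_interior.inter Metric.isOpen_ball).sdiff hFin.isClosed
  have hqFin : (q : ℝ) ∉ Fin := by
    rintro ⟨d, -, hd⟩
    exact hqn (hd ▸ d.2)
  have hqW : (q : ℝ) ∈ ((interior (show Set ℝ from T) ∩ Metric.ball x δ) \ Fin) :=
    ⟨mem_of_mem_nhds hW, hqFin⟩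
  have hqcl : (q : ℝ) ∈ closure {x : ℝ | ∃ h : Irrational x, N ⟨x, h⟩ ≤ n} := hballx hqball
  obtain ⟨z, ⟨⟨hzT, hzb⟩, hzF⟩, hzirr, hzN⟩ := mem_closure_iff.1 hqcl _ hWo hqW
  let pz : P := ⟨z, hzirr⟩
  have hzS : OnePoint.some (toD pz) ∈ S := by
    by_contra hcon
    exact hzF ⟨pz, hcon, rfl⟩
  have hlt : G ((OnePoint.some (toD pz), p0), toML z) < 1 / 2 :=
    hST' _ _ hzS (interior_subset hzT : z ∈ (show Set ℝ from T))
  have hgt : 1 / 2 < G ((OnePoint.some (toD pz), p0), toML z) := by
    apply hN pz p0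
    have h3 : dist r z < 1 / ((n : ℝ) + 1) := by
      have h4 : dist r x < δ := hrball
      have h5 : dist z x < δ := hzb
      have h6 : dist r z ≤ dist r x + dist z x := dist_triangle_right r z x
      have h7 : δ ≤ 1 / (2 * ((n : ℝ) + 1)) := min_le_right _ _
      have h8 : 1 / (2 * ((n : ℝ) + 1)) + 1 / (2 * ((n : ℝ) + 1)) = 1 / ((n : ℝ) + 1) := by
        field_simp; norm_num
      linarith
    refine lt_of_lt_of_le h3 ?_
    apply one_div_le_one_div_of_le (by positivity)
    have : ((N pz : ℕ) : ℝ) ≤ (n : ℝ) := by exact_mod_cast hzN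
    linarith
  exact lt_asymm hlt hgt

/-! ### Properties of the example -/

theorem cech_A : CechComplete A := by
  refine ⟨inferInstance, ?_⟩
  let j : A → OnePoint ℝ := fun a => ((a.1.2 : ℝ) : OnePoint ℝ)
  have hj : Continuous j :=
    OnePoint.continuous_coe.comp (continuous_subtype_val.comp
      (continuous_snd.comp continuous_subtype_val))
  let G : Set (OnePoint ℝ) := {OnePoint.infty}ᶜ ∩ ⋂ q : ℚ, {((q : ℝ) : OnePoint ℝ)}ᶜ
  have hG : IsGδ G :=
    isOpen_compl_singleton.isGδ.inter (IsGδ.iInter fun q => isOpen_compl_singleton.isGδ)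
  apply gdelta_of j hj G hG
  · intro a
    refine ⟨OnePoint.coe_ne_infty _, Set.mem_iInter.2 fun q hq => ?_⟩
    have h1 : ((a.1.2 : ℝ)) = (q : ℝ) := OnePoint.coe_injective hq
    exact a.1.2.2 ⟨q, h1.symm⟩
  · intro f z hz hf
    obtain ⟨hz1, hz2⟩ := hz
    induction z using OnePoint.rec with
    | infty => exact absurd rfl hz1
    | coe r =>
      have hr : Irrational r := by
        rintro ⟨q, hq⟩
        apply Set.mem_iInter.1 hz2 q
        rw [hq]
        rfl
      have h1 : Tendsto (fun a : A => (a.1.2 : ℝ)) f (𝓝 r) :=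
        (OnePoint.isOpenEmbedding_coe.tendsto_nhds_iff).2 hf
      have h2 : Tendsto (fun a : A => a.1.2) f (𝓝 (⟨r, hr⟩ : P)) :=
        tendsto_subtype_rng.2 h1
      have h3 : ∃ k : OnePoint D, Tendsto (fun a : A => a.1.1) f (𝓝 k) := by
        obtain ⟨k, -, hk⟩ := (isCompact_univ (X := OnePoint D)).ultrafilter_le_nhds
          (f.map fun a : A => a.1.1) (by simp)
        exact ⟨k, hk⟩
      obtain ⟨k, hk⟩ := h3
      have h4 : Tendsto (fun a : A => a.1) f (𝓝 (k, (⟨r, hr⟩ : P))) := hk.prodMk_nhds h2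
      have h5 : (k, (⟨r, hr⟩ : P)) ∈ A :=
        A_closed.mem_of_tendsto h4 (Eventually.of_forall fun a => a.2)
      exact ⟨⟨_, h5⟩, tendsto_subtype_rng.2 h4⟩

theorem continuous_ofML : Continuous ofML := continuous_def.2 fun U hU => isOpen_of_real U hU

instance : T2Space ML := T2Space.of_injective_continuous (f := ofML) (fun _ _ h => h) continuous_ofML

theorem t35_ML : T35Space ML := by
  have hreg : CompletelyRegularSpace ML := by
    constructor
    intro x K hK hx
    by_cases hirr : Irrational (ofML x)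
    · classical
      have hop : IsOpen ({x} : Set ML) := isOpen_irr (ofML x) hirr
      have hcl : IsClosed ({x} : Set ML) := isClosed_singleton
      refine ⟨fun y => if y ∈ ({x} : Set ML) then 0 else 1, ?_, ?_, ?_⟩
      · apply IsLocallyConstant.continuous
        rw [IsLocallyConstant.iff_exists_open]
        intro y
        by_cases hy : y ∈ ({x} : Set ML)
        · refine ⟨{x}, hop, hy, fun z hz => ?_⟩
          simp only [if_pos hy, if_pos hz]
        · refine ⟨{x}ᶜ, hcl.isOpen_compl, hy, fun z hz => ?_⟩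
          have hz' : z ∉ ({x} : Set ML) := hz
          simp only [if_neg hy, if_neg hz']
      · simp
      · intro y hy
        have : y ∉ ({x} : Set ML) := by
          intro h
          rw [Set.mem_singleton_iff] at h
          exact hx (h ▸ hy)
        simp only [if_neg this]
        rfl
    · have h1 : (Kᶜ : Set ML) ∈ 𝓝 x := hK.isOpen_compl.mem_nhds hx
      have h2 := nhds_rat (ofML x) hirr _ h1
      have h3 : ofML x ∉ closure (show Set ℝ from K) := by
        rw [mem_closure_iff_nhds]
        push Not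
        refine ⟨_, h2, ?_⟩
        ext y
        exact ⟨fun h => h.1 h.2, fun h => h.elim⟩
      obtain ⟨f, hf, hf0, hf1⟩ := CompletelyRegularSpace.completely_regular (ofML x)
        (closure (show Set ℝ from K)) isClosed_closure h3
      exact ⟨f ∘ ofML, hf.comp continuous_ofML, hf0, fun y hy => hf1 (subset_closure hy)⟩
  exact ⟨⟩

/-- There are a paracompact Hausdorff space X, a closed set A in X that is Cech-complete,
paracompact and P-embedded in X (for Banach spaces in every universe), and a Tychonoff space Y such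
that the product of A and Y is not P-embedded in the product of X and Y. -/
theorem result : ∃ (X : Type) (_ : TopologicalSpace X) (A : Set X),
    T2Space X ∧ ParacompactSpace X ∧ IsClosed A ∧
    CechComplete A ∧ ParacompactSpace A ∧ PEmbedded.{u} A ∧
    ∃ (Y : Type) (_ : TopologicalSpace Y), T35Space Y ∧
      ¬ PEmbedded.{0} (A ×ˢ (Set.univ : Set Y)) := by
  refine ⟨OnePoint D × P, inferInstance, A, inferInstance, inferInstance, A_closed, cech_A,
    A_closed.isClosedEmbedding_subtypeVal.paracompactSpace, pEmbedded_of_closed A_closed,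
    ML, inferInstance, t35_ML, ?_⟩
  intro H
  obtain ⟨G, hG, hE⟩ := H ℝ (fun z => g z.1) (continuousOn_iff_continuous_domRestrict.1 g_cont)
  exact no_ext G hG fun z hz => hE ⟨z, hz⟩

end Pool.Agent.Results.MP_4b6139_gt.NotStronglyP
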